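import Pool.Agent.helper52.EU.SpecI

/-!
# Row eu:LSN (MP_ad8ced_nt)
-/

set_option autoImplicit false

open Finset

namespace Pool.Agent.EU

open Pool.Agent.FI Pool.Agent.FJ

open scoped Classical in
/-- the sum over the cells, twisted -/
private noncomputable def LSN_g (x K : ℕ) (lam : ℤ → ℝ) (k r : ℕ) : ℝ :=
  1 / (Nat.totient r : ℝ) * ∑ ψ : DirichletCharacter ℂ r with ψ.IsPrimitive,
    ∑ i ∈ range K, ‖∑ n ∈ cl x K i with IsCoprime n (k : ℤ), (lam n : ℂ) * ψ (n : ZMod r)‖ ^ 2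

private theorem LSN_g0 (x K : ℕ) (lam : ℤ → ℝ) (k r : ℕ) : 0 ≤ LSN_g x K lam k r := by
  unfold LSN_g
  exact mul_nonneg (by positivity) (sum_nonneg fun _ _ => sum_nonneg fun _ _ => by positivity)

theorem LSN (hGPT : GPT_stmt) (hLSA : LSA_stmt) (hLSB : LSB_stmt) (hPHK : PHK_stmt) : LSN_stmt := by
  classical
  obtain ⟨CB, hCB, hLSB⟩ := hLSB
  obtain ⟨CP, hCP, hPHK⟩ := hPHK
  refine ⟨CP * (9 * CB), by positivity, ?_⟩
  intro x K D₁ R₀ R₁ hx hK hKx hD₁ hR₀ M lam hM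
  obtain ⟨g1, g2, g3, g4, g5, g6, g7, g8⟩ := hGPT x K hx hK
  have hM0 : 0 ≤ M := (abs_nonneg _).trans (hM 0)
  have hx0 : (0 : ℝ) < x := by exact_mod_cast hx
  have hK0 : (0 : ℝ) < K := by exact_mod_cast hK
  have hR0 : (0 : ℝ) < R₀ := by exact_mod_cast hR₀
  -- the size of a cell
  have hcell : ∀ i < K, ((gp x K (i + 1) - gp x K i : ℕ) : ℝ) ≤ 3 * x / K := by
    intro i hi
    have h1 := g8 i hi
    have h2 : #(cl x K i) = gp x K (i + 1) - gp x K i := by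
      unfold cl
      rw [Int.card_Ioc]
      have := g3 i (i + 1) (Nat.le_succ i)
      omega
    rw [h2] at h1
    have h3 : (1 : ℝ) ≤ x / K := by
      rw [le_div_iff₀ hK0, one_mul]
      exact_mod_cast hKx
    calc ((gp x K (i + 1) - gp x K i : ℕ) : ℝ) ≤ 2 * x / K + 1 := h1
      _ ≤ 2 * x / K + x / K := by linarith
      _ = 3 * x / K := by ring
  -- step 1: the left side
  have hL : ∑ D ∈ Icc 1 D₁, 1 / (Nat.totient D : ℝ) *
      ∑ χ : DirichletCharacter ℂ D with R₀ < χ.conductor ∧ χ.conductor ≤ R₁, ∑ i ∈ range K, ‖Fc x K lam χ i‖ ^ 2 =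
      ∑ i ∈ range K, ∑ D ∈ Icc 1 D₁, 1 / (Nat.totient D : ℝ) *
        ∑ χ : DirichletCharacter ℂ D with R₀ < χ.conductor ∧ χ.conductor ≤ R₁,
          ‖∑ n ∈ cl x K i, (lam n : ℂ) * χ (n : ZMod D)‖ ^ 2 := by
    rw [sum_comm (s := range K)]
    refine sum_congr rfl fun D hD => ?_
    rw [← mul_sum]
    congr 1
    rw [sum_comm (s := range K)]
    rfl
  rw [hL]
  -- step 2: primitive characters
  have h2 : ∑ i ∈ range K, ∑ D ∈ Icc 1 D₁, 1 / (Nat.totient D : ℝ) *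
        ∑ χ : DirichletCharacter ℂ D with R₀ < χ.conductor ∧ χ.conductor ≤ R₁,
          ‖∑ n ∈ cl x K i, (lam n : ℂ) * χ (n : ZMod D)‖ ^ 2 ≤
      ∑ k ∈ Icc 1 D₁, 1 / (Nat.totient k : ℝ) * ∑ r ∈ Ioc R₀ R₁ with r * k ≤ D₁,
        LSN_g x K lam k r := by
    have h3 : ∑ k ∈ Icc 1 D₁, 1 / (Nat.totient k : ℝ) * ∑ r ∈ Ioc R₀ R₁ with r * k ≤ D₁,
        LSN_g x K lam k r = ∑ i ∈ range K, ∑ k ∈ Icc 1 D₁, 1 / (Nat.totient k : ℝ) *
          ∑ r ∈ Ioc R₀ R₁ with r * k ≤ D₁, 1 / (Nat.totient r : ℝ) *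
        ∑ ψ : DirichletCharacter ℂ r with ψ.IsPrimitive,
          ‖∑ n ∈ cl x K i with IsCoprime n (k : ℤ), (lam n : ℂ) * ψ (n : ZMod r)‖ ^ 2 := by
      rw [sum_comm (s := range K)]
      refine sum_congr rfl fun k _ => ?_
      rw [← mul_sum]
      congr 1
      rw [sum_comm (s := range K)]
      refine sum_congr rfl fun r _ => ?_
      rw [← mul_sum]
      unfold LSN_g
      congr 1
      rw [sum_comm]
    rw [h3]
    exact sum_le_sum fun i _ => hLSA D₁ R₀ R₁ (cl x K i) (fun n => (lam n : ℂ))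
  refine h2.trans ?_
  -- step 3: one k
  set Y := 9 * CB * (((x : ℝ) / (K * R₀) + R₁) * (x * M ^ 2)) with hY
  have hk : ∀ k ∈ Icc 1 D₁, ∑ r ∈ Ioc R₀ R₁ with r * k ≤ D₁, LSN_g x K lam k r ≤ Y := by
    intro k hk
    refine (sum_le_sum_of_subset_of_nonneg (filter_subset _ _) fun r _ _ => LSN_g0 x K lam k r).trans ?_
    have h4 : ∑ r ∈ Ioc R₀ R₁, LSN_g x K lam k r = ∑ i ∈ range K, ∑ r ∈ Ioc R₀ R₁,
        1 / (Nat.totient r : ℝ) * ∑ ψ : DirichletCharacter ℂ r with ψ.IsPrimitive,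
          ‖∑ n ∈ Ioc (gp x K i : ℤ) (gp x K i + ((gp x K (i + 1) - gp x K i : ℕ) : ℤ)),
            (if IsCoprime n (k : ℤ) then (lam n : ℂ) else 0) * ψ (n : ZMod r)‖ ^ 2 := by
      rw [sum_comm (s := range K)]
      refine sum_congr rfl fun r _ => ?_
      rw [← mul_sum]
      unfold LSN_g
      congr 1
      rw [sum_comm]
      refine sum_congr rfl fun i _ => ?_
      refine sum_congr rfl fun ψ _ => ?_
      congr 2
      rw [sum_filter]
      have h5 : (gp x K i : ℤ) + ((gp x K (i + 1) - gp x K i : ℕ) : ℤ) = gp x K (i + 1) := by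
        have := g3 i (i + 1) (Nat.le_succ i)
        omega
      rw [h5]
      unfold cl
      refine sum_congr rfl fun n _ => ?_
      rw [ite_mul, zero_mul]
    rw [h4]
    have h6 : ∀ i ∈ range K, ∑ r ∈ Ioc R₀ R₁,
        1 / (Nat.totient r : ℝ) * ∑ ψ : DirichletCharacter ℂ r with ψ.IsPrimitive,
          ‖∑ n ∈ Ioc (gp x K i : ℤ) (gp x K i + ((gp x K (i + 1) - gp x K i : ℕ) : ℤ)),
            (if IsCoprime n (k : ℤ) then (lam n : ℂ) else 0) * ψ (n : ZMod r)‖ ^ 2 ≤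
        CB * (3 * x / K / R₀ + R₁) * (3 * x / K * M ^ 2) := by
      intro i hi
      rw [mem_range] at hi
      refine (hLSB R₁ R₀ (gp x K i) (gp x K (i + 1) - gp x K i)
        (fun n => if IsCoprime n (k : ℤ) then (lam n : ℂ) else 0) hR₀).trans ?_
      have h7 := hcell i hi
      have h8 : ∑ n ∈ Ioc (gp x K i : ℤ) (gp x K i + ((gp x K (i + 1) - gp x K i : ℕ) : ℤ)),
          ‖(if IsCoprime n (k : ℤ) then (lam n : ℂ) else 0)‖ ^ 2 ≤ 3 * x / K * M ^ 2 := by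
        have h9 : ∀ n ∈ Ioc (gp x K i : ℤ) (gp x K i + ((gp x K (i + 1) - gp x K i : ℕ) : ℤ)),
            ‖(if IsCoprime n (k : ℤ) then (lam n : ℂ) else 0)‖ ^ 2 ≤ M ^ 2 := by
          intro n _
          split_ifs
          · rw [Complex.norm_real, Real.norm_eq_abs]
            exact pow_le_pow_left₀ (abs_nonneg _) (hM n) 2
          · rw [norm_zero, zero_pow (by norm_num)]
            positivity
        have h10 := Finset.sum_le_card_nsmul _ _ _ h9
        rw [nsmul_eq_mul, Int.card_Ioc] at h10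
        have h11 : ((gp x K i : ℤ) + ((gp x K (i + 1) - gp x K i : ℕ) : ℤ) - gp x K i).toNat =
            gp x K (i + 1) - gp x K i := by omega
        rw [h11] at h10
        exact h10.trans (mul_le_mul_of_nonneg_right h7 (by positivity))
      have h12 : ((gp x K (i + 1) - gp x K i : ℕ) : ℝ) / R₀ + R₁ ≤ 3 * x / K / R₀ + R₁ := by
        have := div_le_div_of_nonneg_right h7 hR0.le
        linarith
      refine mul_le_mul ?_ h8 (sum_nonneg fun _ _ => by positivity) (by positivity)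
      exact mul_le_mul_of_nonneg_left h12 hCB.le
    have h13 := Finset.sum_le_card_nsmul _ _ _ h6
    rw [nsmul_eq_mul, card_range] at h13
    refine h13.trans ?_
    have h14 : (K : ℝ) * (CB * (3 * x / K / R₀ + R₁) * (3 * x / K * M ^ 2)) =
        CB * 3 * (3 * (x / (K * R₀)) + R₁) * (x * M ^ 2) := by
      field_simp
    rw [h14]
    have h15 : 3 * ((x : ℝ) / (K * R₀)) + R₁ ≤ 3 * (x / (K * R₀) + R₁) := by
      have : (0 : ℝ) ≤ R₁ := by positivity
      linarith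
    calc CB * 3 * (3 * ((x : ℝ) / (K * R₀)) + R₁) * (x * M ^ 2)
        ≤ CB * 3 * (3 * (x / (K * R₀) + R₁)) * (x * M ^ 2) := by
          refine mul_le_mul_of_nonneg_right ?_ (by positivity)
          exact mul_le_mul_of_nonneg_left h15 (by positivity)
      _ = Y := by rw [hY]; ring
  have hY0 : 0 ≤ Y := by positivity
  calc ∑ k ∈ Icc 1 D₁, 1 / (Nat.totient k : ℝ) * ∑ r ∈ Ioc R₀ R₁ with r * k ≤ D₁,
        LSN_g x K lam k r
      ≤ ∑ k ∈ Icc 1 D₁, 1 / (Nat.totient k : ℝ) * Y :=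
        sum_le_sum fun k hk' => mul_le_mul_of_nonneg_left (hk k hk') (by positivity)
    _ = (∑ k ∈ Icc 1 D₁, 1 / (Nat.totient k : ℝ)) * Y := by rw [sum_mul]
    _ ≤ (CP * (1 + Real.log D₁)) * Y := mul_le_mul_of_nonneg_right (hPHK D₁ hD₁) hY0
    _ = _ := by rw [hY]; ring

end Pool.Agent.EU
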